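import Pool.Agent.helper81.PJ.Spec2

set_option autoImplicit false

namespace Pool.Agent.PJ

open Finset Pool.Agent.PY2

/-- the real arithmetic at the end -/
lemma SPQG_arith (l : ℕ) (U W s N b p Q TT D K P1 P2 : ℝ) (hU : 0 < U) (hW : 0 < W) (hp : 0 < p)
    (hN : 0 ≤ N) (hb : 0 ≤ b) (hQ : 0 ≤ Q) (hT : 1 ≤ TT) (hD : 0 ≤ D) (hK : 0 ≤ K)
    (hP1 : P1 ≤ b * (10 ^ 4 * (U * b * (2 * N)) ^ 2 / p + 10 ^ 5 * TT * D * (U * b * (2 * N))))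
    (hP2 : P2 ≤ Q * (K * W ^ (l + 1) * p ^ 2)) (hP10 : 0 ≤ P1) (hP20 : 0 ≤ P2)
    (h : (U * W * s) ^ (2 * (l + 1)) ≤ (U * (2 * N) * b ^ 2) ^ (2 * l) * P1 * P2) :
    W ^ (l + 1) * s ^ (2 * (l + 1)) ≤
      (K * 2 ^ (2 * l) * (2 * 10 ^ 5)) * Q * TT * (p * N ^ (2 * (l + 1)) * b ^ (4 * l + 3) +
        D * p ^ 2 * N ^ (2 * l + 1) * b ^ (4 * l + 2) / U) := by
  have e0 : 0 ≤ (U * (2 * N) * b ^ 2) ^ (2 * l) := by positivity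
  have h1 : (U * W * s) ^ (2 * (l + 1)) ≤ (U * (2 * N) * b ^ 2) ^ (2 * l) *
      (b * (10 ^ 4 * (U * b * (2 * N)) ^ 2 / p + 10 ^ 5 * TT * D * (U * b * (2 * N)))) *
      (Q * (K * W ^ (l + 1) * p ^ 2)) := by
    refine h.trans ?_
    apply mul_le_mul (mul_le_mul_of_nonneg_left hP1 e0) hP2 hP20
    apply mul_nonneg e0
    positivity
  have hUW : 0 < U ^ (2 * (l + 1)) * W ^ (l + 1) := by positivity
  have h2 : U ^ (2 * (l + 1)) * W ^ (l + 1) * (W ^ (l + 1) * s ^ (2 * (l + 1))) ≤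
      U ^ (2 * (l + 1)) * W ^ (l + 1) * (Q * K * 2 ^ (2 * l) *
        (4 * 10 ^ 4 * (p * N ^ (2 * (l + 1)) * b ^ (4 * l + 3)) +
         2 * 10 ^ 5 * TT * (D * p ^ 2 * N ^ (2 * l + 1) * b ^ (4 * l + 2) / U))) := by
    have e1 : U ^ (2 * (l + 1)) * W ^ (l + 1) * (W ^ (l + 1) * s ^ (2 * (l + 1))) =
        (U * W * s) ^ (2 * (l + 1)) := by
      rw [mul_pow, mul_pow]
      ring
    rw [e1]
    refine h1.trans (le_of_eq ?_)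
    have hp' : p ≠ 0 := hp.ne'
    have hU' : U ≠ 0 := hU.ne'
    field_simp
    ring
  have h3 := le_of_mul_le_mul_left h2 hUW
  refine h3.trans ?_
  set A := p * N ^ (2 * (l + 1)) * b ^ (4 * l + 3) with hA
  set B := D * p ^ 2 * N ^ (2 * l + 1) * b ^ (4 * l + 2) / U with hB
  have hA0 : 0 ≤ A := by positivity
  have hB0 : 0 ≤ B := by positivity
  have h4 : 4 * 10 ^ 4 * A + 2 * 10 ^ 5 * TT * B ≤ 2 * 10 ^ 5 * TT * (A + B) := by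
    have : A ≤ TT * A := by nlinarith
    nlinarith
  have h5 : 0 ≤ Q * K * 2 ^ (2 * l) := by positivity
  calc Q * K * 2 ^ (2 * l) * (4 * 10 ^ 4 * A + 2 * 10 ^ 5 * TT * B)
      ≤ Q * K * 2 ^ (2 * l) * (2 * 10 ^ 5 * TT * (A + B)) := mul_le_mul_of_nonneg_left h4 h5
    _ = _ := by ring

theorem SPQG (hMAX : MAX_stmt) (hNU2 : NU2_stmt) (hMO2 : MO2_stmt) (hMS2 : MS2_stmt) (hEN2 : EN2_stmt)
    (hNUG : NUG_stmt) (hHO2 : HO2_stmt) : SPQG_stmt := by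
  intro l hl
  obtain ⟨l, rfl⟩ : ∃ k, l = k + 1 := ⟨l - 1, by omega⟩
  refine ⟨(2 ^ (2 * (l + 1) + 1) * (((l + 1 : ℕ) : ℝ) ^ (2 * (l + 1)) + 4 * ((l + 1 : ℕ) : ℝ) ^ 2)) *
    2 ^ (2 * l) * (2 * 10 ^ 5), by positivity, ?_⟩
  intro p hp χ hχ N U n T D B hU hUN hNp hWp hT hD
  have hp0 : 0 < p := hp.out.pos
  have hpr : (0 : ℝ) < p := by exact_mod_cast hp0
  have hW1 : 1 ≤ 2 ^ n := Nat.one_le_two_pow
  have h2U : 2 * U ≤ N := le_trans (Nat.le_mul_of_pos_left _ hW1) hUN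
  have hUp : 2 * U < p := by omega
  have hT1 : 1 ≤ T := by
    have := hT 1 le_rfl hp0
    simpa using this
  have hT1' : (1 : ℝ) ≤ T := by exact_mod_cast hT1
  have hD0 : 0 ≤ D := le_trans (Nat.cast_nonneg _) (hD 0)
  have hWp' : 2 ^ n ≤ p := le_trans (Nat.le_self_pow (Nat.succ_ne_zero l) _) hWp
  have hnu := hNU2 p χ (l + 1) N U n B (Nat.succ_pos l) hUp hUN
  have hho := hHO2 p (fun x y => (nu2 B (2 * N) U x y : ℝ)) (fun x y => mj (l + 1) n (c2 χ x y)) (l + 1)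
    (Nat.succ_pos l) (fun x y => Nat.cast_nonneg _) (fun x y => (hMAX (l + 1) n _ (Nat.succ_pos l)).1)
  have hms := hMS2 p (2 * N) U B hUp
  have hen := hEN2 p (2 * N) U B hUp
  have hng := hNUG p B (2 * N) U T D hU (by omega) (by omega) hT hD
  have hmo := hMO2 p χ hχ (l + 1) n (Nat.succ_pos l) hWp'
  have e1 : 2 * (l + 1) - 2 = 2 * l := by omega
  have e2 : 4 * (l + 1) - 1 = 4 * l + 3 := by omega
  have e3 : 4 * (l + 1) - 2 = 4 * l + 2 := by omega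
  have e4 : 2 * (l + 1) - 1 = 2 * l + 1 := by omega
  rw [e1] at hho
  rw [e2, e3, e4]
  push_cast at hms hng hen
  have hs0 : 0 ≤ ∑ z ∈ B ×ˢ B, ‖Gc χ N z.1 z.2‖ := Finset.sum_nonneg fun _ _ => norm_nonneg _
  have hK : 0 ≤ (2 : ℝ) ^ (2 * (l + 1) + 1) *
      (((l + 1 : ℕ) : ℝ) ^ (2 * (l + 1)) + 4 * ((l + 1 : ℕ) : ℝ) ^ 2) := by positivity
  apply SPQG_arith l (U : ℝ) ((2 : ℝ) ^ n) _ (N : ℝ) (B.card : ℝ) (p : ℝ) (((n : ℝ) + 1) ^ (2 * (l + 1) + 1))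
    (T : ℝ) D _ (∑ x : ZMod p, ∑ y : ZMod p, (nu2 B (2 * N) U x y : ℝ) ^ 2)
    (∑ x : ZMod p, ∑ y : ZMod p, mj (l + 1) n (c2 χ x y) ^ (2 * (l + 1)))
    (by exact_mod_cast hU) (by positivity) hpr (Nat.cast_nonneg _) (Nat.cast_nonneg _) (by positivity)
    hT1' hD0 hK
  · refine hen.trans ?_
    exact mul_le_mul_of_nonneg_left hng (Nat.cast_nonneg _)
  · refine hmo.trans ?_
    have h6 : ((2 : ℝ) ^ n) ^ (l + 1) ≤ p := by exact_mod_cast hWp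
    have h7 : (2 * ((l + 1 : ℕ) : ℝ) * Real.sqrt p) ^ 2 = 4 * ((l + 1 : ℕ) : ℝ) ^ 2 * p := by
      rw [mul_pow, Real.sq_sqrt hpr.le]
      ring
    have h8 : ((2 : ℝ) ^ n) ^ (2 * (l + 1)) = ((2 : ℝ) ^ n) ^ (l + 1) * ((2 : ℝ) ^ n) ^ (l + 1) := by
      rw [← pow_add]
      ring
    rw [h7, h8, mul_pow]
    have h9 : ((2 : ℝ) ^ n) ^ (l + 1) * ((2 : ℝ) ^ n) ^ (l + 1) * (4 * ((l + 1 : ℕ) : ℝ) ^ 2 * p) ≤
        4 * ((l + 1 : ℕ) : ℝ) ^ 2 * ((2 : ℝ) ^ n) ^ (l + 1) * (p : ℝ) ^ 2 := by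
      have h10 : 0 ≤ 4 * ((l + 1 : ℕ) : ℝ) ^ 2 * ((2 : ℝ) ^ n) ^ (l + 1) * p := by positivity
      have := mul_le_mul_of_nonneg_left h6 h10
      calc _ = 4 * ((l + 1 : ℕ) : ℝ) ^ 2 * ((2 : ℝ) ^ n) ^ (l + 1) * p * ((2 : ℝ) ^ n) ^ (l + 1) := by ring
        _ ≤ _ := this
        _ = _ := by ring
    have h11 : (0 : ℝ) ≤ 2 ^ (2 * (l + 1) + 1) * ((n : ℝ) + 1) ^ (2 * (l + 1) + 1) := by positivity
    calc (2 : ℝ) ^ (2 * (l + 1) + 1) * ((n : ℝ) + 1) ^ (2 * (l + 1) + 1) *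
          (((l + 1 : ℕ) : ℝ) ^ (2 * (l + 1)) * ((2 : ℝ) ^ n) ^ (l + 1) * (p : ℝ) ^ 2 +
            ((2 : ℝ) ^ n) ^ (l + 1) * ((2 : ℝ) ^ n) ^ (l + 1) * (4 * ((l + 1 : ℕ) : ℝ) ^ 2 * p))
        ≤ (2 : ℝ) ^ (2 * (l + 1) + 1) * ((n : ℝ) + 1) ^ (2 * (l + 1) + 1) *
          (((l + 1 : ℕ) : ℝ) ^ (2 * (l + 1)) * ((2 : ℝ) ^ n) ^ (l + 1) * (p : ℝ) ^ 2 +
            4 * ((l + 1 : ℕ) : ℝ) ^ 2 * ((2 : ℝ) ^ n) ^ (l + 1) * (p : ℝ) ^ 2) :=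
          mul_le_mul_of_nonneg_left (by linarith) h11
      _ = _ := by ring
  · exact Finset.sum_nonneg fun x _ => Finset.sum_nonneg fun y _ => sq_nonneg _
  · exact Finset.sum_nonneg fun x _ => Finset.sum_nonneg fun y _ =>
      pow_nonneg (hMAX (l + 1) n _ (Nat.succ_pos l)).1 _
  · refine le_trans (pow_le_pow_left₀ (by positivity) hnu _) ?_
    refine hho.trans (le_of_eq ?_)
    rw [hms]

end Pool.Agent.PJ
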